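import Pool.Agent.Q178.RK.B

/-!
MP_8f6a5a_an, Q1: the assertion `ρ((I - c eᵀ) P) ≤ 1` fails; there is a counterexample of every
order `n ≥ 965`.

`P = 1 - ε L`, `L` the operator of a weighted path network (Perron vector `v`) with one site of
high potential, two single sites and a fast group of `W = n - 3` sites; `s = 1 + i ε`. The solution
`w` of `(i + L) w = e` has `0` in the interior of the convex hull of its first three values, so
`cᵀ (s - P)⁻¹ e = 0` for some `c` supported there.
-/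

namespace Pool.Agent.Results.MP_8f6a5a_an.RadiusExceedsOne

open Finset

/-- the complex number `μ` is an eigenvalue of the real matrix `M` -/
def IsEigenvalue {n : ℕ} (M : Matrix (Fin n) (Fin n) ℝ) (μ : ℂ) : Prop :=
  ∃ x : Fin n → ℂ, x ≠ 0 ∧ ∀ i, ∑ j, (M i j : ℂ) * x j = μ * x i

/-- the largest modulus of a complex eigenvalue of `M` is `r` -/
def HasSpectralRadius {n : ℕ} (M : Matrix (Fin n) (Fin n) ℝ) (r : ℝ) : Prop :=
  IsGreatest {t : ℝ | ∃ μ : ℂ, IsEigenvalue M μ ∧ t = ‖μ‖} r

/-- the conditions on `P`: real symmetric, conditions 1, 2 and 3 of the problem -/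
structure Admissible {n : ℕ} (P : Matrix (Fin n) (Fin n) ℝ) : Prop where
  symm : P.IsSymm
  zero : ∀ r s : Fin n, 1 < |((r : ℕ) : ℤ) - ((s : ℕ) : ℤ)| → P r s = 0
  pos : ∀ r s : Fin n, |((r : ℕ) : ℤ) - ((s : ℕ) : ℤ)| ≤ 1 → 0 < P r s
  radius : HasSpectralRadius P 1
  sums : ∀ s : Fin n,
    ∑ r : Fin n, (if ((r : ℕ) : ℤ) = (s : ℕ) - 1 ∨ ((r : ℕ) : ℤ) = (s : ℕ) + 1 then P r s else 0) ≤ 1

/-- `(I - c eᵀ) P`, where `e` is the all-ones vector -/
def modified {n : ℕ} (P : Matrix (Fin n) (Fin n) ℝ) (c : Fin n → ℝ) : Matrix (Fin n) (Fin n) ℝ :=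
  (1 - Matrix.vecMulVec c (fun _ => 1)) * P

open Pool.Agent.Q178.RK in
theorem sum3 {W : ℕ} (f : Fin (W + 3) → ℂ) (c0 c1 c2 : ℝ) :
    ∑ i : Fin (W + 3), (((if (i : ℕ) = 0 then c0 else if (i : ℕ) = 1 then c1 else
      if (i : ℕ) = 2 then c2 else 0) : ℝ) : ℂ) * f i
      = c0 * f ⟨0, by omega⟩ + (c1 * f ⟨1, by omega⟩ + c2 * f ⟨2, by omega⟩) := by
  rw [Fin.sum_univ_succ, Fin.sum_univ_succ, Fin.sum_univ_succ]
  rw [Finset.sum_eq_zero (s := univ)]
  · simp only [add_zero]
    rfl
  · intro i _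
    have h0 : ¬ ((i.succ.succ.succ : Fin (W + 3)) : ℕ) = 0 := by simp
    have h1 : ¬ ((i.succ.succ.succ : Fin (W + 3)) : ℕ) = 1 := by simp
    have h2 : ¬ ((i.succ.succ.succ : Fin (W + 3)) : ℕ) = 2 := by simp
    rw [if_neg h0, if_neg h1, if_neg h2]
    simp

open Pool.Agent.Q178.RK in
theorem main {W : ℕ} (hW : 962 ≤ W) : ∃ (P : Matrix (Fin (W + 3)) (Fin (W + 3)) ℝ)
    (c : Fin (W + 3) → ℝ), Admissible P ∧ (∀ i, 0 ≤ c i) ∧ ∑ i, c i = 1 ∧
      ∃ μ : ℂ, IsEigenvalue (modified P c) μ ∧ 1 < ‖μ‖ := by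
  obtain ⟨S, h, V, hS, hh, hV, hSW, w, hw, d1, d2, d3⟩ := exists_network hW
  set v := vv S h V with hvdef
  set e := ee W S h V with hedef
  have hv : ∀ k, 0 < v k := vv_pos hS hh hV
  have he0 : e 0 = 0 := rfl
  have heN : e (W + 3) = 0 := ee_last (by omega) S h V
  have hepos : ∀ k, 1 ≤ k → k < W + 3 → 0 < e k := by
    intro k hk1 hk2
    match k, hk1, hk2 with
    | 1, _, _ => exact div_pos (pow_pos hh 2) hV
    | 2, _, _ => show (0 : ℝ) < 1 / 3; norm_num
    | 3, _, _ => show (0 : ℝ) < 1 / 3; norm_num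
    | (k + 4), _, hk2 =>
      show 0 < (if k + 1 < W then 1 / (h * S ^ 2) else 0)
      rw [if_pos (by omega)]
      positivity
  have henn : ∀ k, 0 ≤ e k := by
    intro k
    match k with
    | 0 => exact le_refl _
    | 1 => exact (div_pos (pow_pos hh 2) hV).le
    | 2 => show (0 : ℝ) ≤ 1 / 3; norm_num
    | 3 => show (0 : ℝ) ≤ 1 / 3; norm_num
    | (k + 4) =>
      show 0 ≤ (if k + 1 < W then 1 / (h * S ^ 2) else 0)
      split_ifs
      · positivity
      · exact le_refl _
  -- the size of ε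
  set T : ℕ → ℝ := fun k => (e k + e (k + 1)) / v k ^ 2 + e k / (v (k - 1) * v k)
    + e (k + 1) / (v k * v (k + 1)) with hT
  have hTnn : ∀ k, 0 ≤ T k := by
    intro k
    have h1 := hv k
    have h2 := hv (k - 1)
    have h3 := hv (k + 1)
    have h4 := henn k
    have h5 := henn (k + 1)
    simp only [hT]
    positivity
  set M : ℝ := ∑ k ∈ range (W + 3), T k with hM
  have hMnn : 0 ≤ M := Finset.sum_nonneg fun k _ => hTnn k
  set ε : ℝ := 1 / (M + 1) with hε
  have hε0 : 0 < ε := by positivity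
  have hεT : ∀ k < W + 3, ε * T k < 1 := by
    intro k hk
    have h1 : T k ≤ M := Finset.single_le_sum (f := T) (fun i _ => hTnn i) (Finset.mem_range.2 hk)
    rw [hε, one_div, inv_mul_lt_iff₀ (by positivity)]
    linarith
  set P : Matrix (Fin (W + 3)) (Fin (W + 3)) ℝ := tri (W + 3) (ad v e ε) (bd v e ε) with hP
  have hPsymm : ∀ i j, P i j = P j i := fun i j => tri_symm i j
  have hdiag : ∀ k < W + 3, 0 < ad v e ε k := by
    intro k hk
    have h1 := hεT k hk
    have h2 : (e k + e (k + 1)) / v k ^ 2 ≤ T k := by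
      have h1 := hv k
      have h2 := hv (k - 1)
      have h3 := hv (k + 1)
      have h4 := henn k
      have h5 := henn (k + 1)
      have h6 : 0 ≤ e k / (v (k - 1) * v k) := by positivity
      have h7 : 0 ≤ e (k + 1) / (v k * v (k + 1)) := by positivity
      simp only [hT]
      linarith
    have h3 : ε * ((e k + e (k + 1)) / v k ^ 2) ≤ ε * T k := mul_le_mul_of_nonneg_left h2 hε0.le
    simp only [ad]
    linarith
  have hoff : ∀ k, 1 ≤ k → k < W + 3 → 0 < bd v e ε k := by
    intro k hk1 hk2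
    have h1 := hv k
    have h2 := hv (k - 1)
    have h3 := hepos k hk1 hk2
    simp only [bd]
    positivity
  have hPnn : ∀ i j, 0 ≤ P i j := by
    intro i j
    simp only [hP, tri]
    split_ifs with h1 h2 h3
    · exact (hdiag _ i.2).le
    · exact (hoff _ (by omega) (by have := j.2; omega)).le
    · exact (hoff _ (by omega) i.2).le
    · exact le_refl _
  -- Perron vector
  have hPv : ∀ i : Fin (W + 3), ∑ j, P i j * v j = v i := by
    intro i
    have h1 := P_mul (ε := ε) hv he0 heN (fun k => (v k : ℂ)) i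
    have h2 : Lw v e (fun k => (v k : ℂ)) i = 0 := by
      have a1 : (v (i : ℕ) : ℂ) ≠ 0 := by exact_mod_cast (hv i).ne'
      have a2 : (v ((i : ℕ) + 1) : ℂ) ≠ 0 := by exact_mod_cast (hv _).ne'
      have a3 : (v ((i : ℕ) - 1) : ℂ) ≠ 0 := by exact_mod_cast (hv _).ne'
      simp only [Lw]
      rw [div_self a1, div_self a2, div_self a3]
      simp
    rw [h2, mul_zero, sub_zero] at h1
    exact_mod_cast h1
  have hrho : HasSpectralRadius P 1 := by
    constructor
    · refine ⟨1, ⟨fun i => (v i : ℂ), ?_, fun i => ?_⟩, by simp⟩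
      · intro h0
        have := congrFun h0 ⟨0, by omega⟩
        simp only [Pi.zero_apply] at this
        exact (hv 0).ne' (by exact_mod_cast this)
      · rw [one_mul]
        show ∑ j : Fin (W + 3), (P i j : ℂ) * (v (j : ℕ) : ℂ) = (v (i : ℕ) : ℂ)
        exact_mod_cast hPv i
    · rintro t ⟨μ, hμ, rfl⟩
      exact rho_le hPsymm hPnn (fun i => v i) (fun i => hv i) hPv μ hμ
  have hadm : Admissible P := by
    refine ⟨?_, ?_, ?_, hrho, ?_⟩
    · ext i j
      exact hPsymm j i
    · intro r s hrs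
      simp only [hP, tri]
      have h1 : ¬ ((s : ℕ) = r) := by rintro h1; rw [h1] at hrs; simp at hrs
      have h2 : ¬ ((s : ℕ) = r + 1) := by rintro h1; rw [h1] at hrs; push_cast at hrs; simp at hrs
      have h3 : ¬ ((r : ℕ) = s + 1) := by rintro h1; rw [h1] at hrs; push_cast at hrs; simp at hrs
      rw [if_neg h1, if_neg h2, if_neg h3]
    · intro r s hrs
      rw [abs_le] at hrs
      simp only [hP, tri]
      by_cases h1 : (s : ℕ) = r
      · rw [if_pos h1]; exact hdiag _ r.2
      · rw [if_neg h1]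
        by_cases h2 : (s : ℕ) = r + 1
        · rw [if_pos h2]; exact hoff _ (by omega) (by have := s.2; omega)
        · rw [if_neg h2]
          have h3 : (r : ℕ) = s + 1 := by omega
          rw [if_pos h3]
          exact hoff _ (by omega) r.2
    · intro s
      have hb0 : bd v e ε 0 = 0 := by simp [bd, he0]
      have hbN : bd v e ε (W + 3) = 0 := by simp [bd, heN]
      have h1 := tri_sum (N := W + 3) (a := fun _ => 0) (b := bd v e ε) hb0 hbN (fun _ => 1) s
      have h2 : ∑ r : Fin (W + 3), (if ((r : ℕ) : ℤ) = (s : ℕ) - 1 ∨ ((r : ℕ) : ℤ) = (s : ℕ) + 1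
          then P r s else 0) = bd v e ε (s + 1) + bd v e ε s := by
        have h3 : ∑ r : Fin (W + 3), (if ((r : ℕ) : ℤ) = (s : ℕ) - 1 ∨ ((r : ℕ) : ℤ) = (s : ℕ) + 1
          then P r s else 0) = ∑ r : Fin (W + 3), tri (W + 3) (fun _ => 0) (bd v e ε) s r := by
          refine Finset.sum_congr rfl fun r _ => ?_
          rw [hPsymm r s]
          simp only [hP, tri]
          by_cases a1 : (r : ℕ) = s
          · rw [if_neg (by omega), if_pos a1]
          · by_cases a2 : (r : ℕ) = s + 1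
            · rw [if_pos (by omega)]
              simp only [if_neg a1, if_pos a2]
            · by_cases a3 : (s : ℕ) = r + 1
              · rw [if_pos (by omega)]
                simp only [if_neg a1, if_neg a2, if_pos a3]
              · rw [if_neg (by omega), if_neg a1, if_neg a2, if_neg a3]
        rw [h3]
        simp only [mul_one] at h1
        have h4 : ((∑ r : Fin (W + 3), tri (W + 3) (fun _ => 0) (bd v e ε) s r : ℝ) : ℂ)
            = ((bd v e ε (s + 1) + bd v e ε s : ℝ) : ℂ) := by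
          push_cast
          rw [h1]
          simp
        exact_mod_cast h4
      rw [h2]
      have h5 := hεT s s.2
      have h6 : bd v e ε (s + 1) + bd v e ε s ≤ ε * T s := by
        simp only [bd, hT, Nat.add_sub_cancel]
        have a1 := hv (s : ℕ)
        have a4 := henn (s : ℕ)
        have a5 := henn ((s : ℕ) + 1)
        have : 0 ≤ ε * ((e (s : ℕ) + e ((s : ℕ) + 1)) / v (s : ℕ) ^ 2) := by positivity
        nlinarith
      linarith
  -- the weights
  have hZ : 0 < -cross (w 0) (w 2) + -cross (w 2) (w 1) + -cross (w 1) (w 0) := by linarith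
  set Z : ℝ := -cross (w 0) (w 2) + -cross (w 2) (w 1) + -cross (w 1) (w 0) with hZdef
  set c : Fin (W + 3) → ℝ := fun i => if (i : ℕ) = 0 then -cross (w 2) (w 1) / Z else
    if (i : ℕ) = 1 then -cross (w 0) (w 2) / Z else
      if (i : ℕ) = 2 then -cross (w 1) (w 0) / Z else 0 with hc
  have hcsum : ∑ i, c i = 1 := by
    have h1 := sum3 (W := W) (fun _ => 1) (-cross (w 2) (w 1) / Z) (-cross (w 0) (w 2) / Z)
      (-cross (w 1) (w 0) / Z)
    simp only [mul_one] at h1
    have h2 : ((∑ i, c i : ℝ) : ℂ) = ((1 : ℝ) : ℂ) := by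
      rw [Complex.ofReal_sum]
      simp only [hc]
      rw [h1]
      have : -cross (w 2) (w 1) / Z + (-cross (w 0) (w 2) / Z + -cross (w 1) (w 0) / Z) = 1 := by
        rw [← add_div, ← add_div, div_eq_one_iff_eq hZ.ne', hZdef]; ring
      rw [← this]; push_cast; ring
    exact_mod_cast h2
  have hcw : ∑ i : Fin (W + 3), (c i : ℂ) * (w i / ε) = 0 := by
    simp only [hc]
    rw [sum3 (W := W) (fun i => w i / ε)]
    have h1 := cross_id (w 0) (w 1) (w 2)
    have hZC : (Z : ℂ) ≠ 0 := by exact_mod_cast hZ.ne'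
    have hεC : (ε : ℂ) ≠ 0 := by exact_mod_cast hε0.ne'
    push_cast
    field_simp
    linear_combination -h1
  refine ⟨P, c, hadm, ?_, hcsum, 1 + Complex.I * ε, ?_, ?_⟩
  · intro i
    simp only [hc]
    split_ifs
    · exact div_nonneg (by linarith) hZ.le
    · exact div_nonneg (by linarith) hZ.le
    · exact div_nonneg (by linarith) hZ.le
    · exact le_refl _
  · refine eig_F hPsymm c hcsum (fun i => w i / ε) _ ?_ hcw
    intro i
    have hεC : (ε : ℂ) ≠ 0 := by exact_mod_cast hε0.ne'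
    have h1 := P_mul (ε := ε) hv he0 heN w i
    have h2 := hw i i.2
    have h3 : ∑ j : Fin (W + 3), (P i j : ℂ) * (w j / ε) = (w i - ε * Lw v e w i) / ε := by
      rw [← h1, Finset.sum_div]
      exact Finset.sum_congr rfl fun j _ => by ring
    rw [h3]
    field_simp
    linear_combination (ε : ℂ) * h2
  · have h1 : ‖(1 : ℂ) + Complex.I * ε‖ ^ 2 = 1 + ε ^ 2 := by
      rw [← Complex.normSq_eq_norm_sq, Complex.normSq_apply]
      simp
      ring
    have h2 : 0 < ε ^ 2 := by positivity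
    by_contra hcon
    push Not at hcon
    have h3 : ‖(1 : ℂ) + Complex.I * ε‖ ^ 2 ≤ 1 := pow_le_one₀ (norm_nonneg _) hcon
    linarith

/-- **MP_8f6a5a_an, Q1** (disproof): a counterexample for every order `n ≥ 965`. -/
theorem result : ∀ n : ℕ, 965 ≤ n → ∃ (P : Matrix (Fin n) (Fin n) ℝ) (c : Fin n → ℝ),
    Admissible P ∧ (∀ i, 0 ≤ c i) ∧ ∑ i, c i = 1 ∧
      ∃ μ : ℂ, IsEigenvalue (modified P c) μ ∧ 1 < ‖μ‖ := by
  intro n hn
  obtain ⟨W, rfl⟩ : ∃ W, n = W + 3 := ⟨n - 3, by omega⟩
  exact main (by omega)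

end Pool.Agent.Results.MP_8f6a5a_an.RadiusExceedsOne
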